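import Pool.Agent.X22.ND10
import Pool.Agent.X22.CM2

/-!
# Ordinary reduction of the summands of `H ^ 1` of the superelliptic curves `Y ^ N = X ^ n + h (X) + m` given by sets of characters of `μ_N`, at a positive proportion of the primes, for
almost all `m` in arbitrarily thin families and all `h` at once

Nothing is used besides Mathlib in the statement.
-/

set_option autoImplicit false

namespace Pool.Agent.Results.MP_0dad22_ag.FewDigitSuperelliptic

open Finset Polynomial

/-- The polynomial `X ^ n + h (X) + m` modulo `p`. -/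
noncomputable def poly (p n : ℕ) (h : ℤ[X]) (m : ℕ) : (ZMod p)[X] :=
  X ^ n + h.map (Int.castRingHom (ZMod p)) + C (m : ZMod p)

/-- The number of the differentials `X ^ (i - 1) dX / Y ^ c`, `1 ≤ i`, on the curve `Y ^ N = f (X)`, `deg f = n` prime to `N`, `0 < c < N`, which have no poles: the integral
part of `n c / N`. -/
def dimension (n N c : ℕ) : ℕ := n * c / N

/-- The block with the number `c` of the Cartier–Manin matrix of the curve `Y ^ N = f (X)` modulo the prime `p ≡ 1` modulo `N`, for the differentials `X ^ (i - 1) dX / Y ^ c`: the entry with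
the number `(i, j)`, `i, j ≥ 1`, is the coefficient of `X ^ (i p - j)` in `f (X) ^ (c (p - 1) / N)`. -/
noncomputable def cartierManin (p n N c : ℕ) (f : (ZMod p)[X]) : Matrix (Fin (dimension n N c)) (Fin (dimension n N c)) (ZMod p) :=
  fun i j => (f ^ (c * ((p - 1) / N))).coeff (((i : ℕ) + 1) * p - ((j : ℕ) + 1))

/-- The curve `Y ^ N = X ^ n + h (X) + m` has good reduction at `p`, and the blocks of the Cartier–Manin matrix with the numbers `c ∈ C` are invertible. -/
def Ordinary (p n N : ℕ) (C : Finset ℕ) (h : ℤ[X]) (m : ℕ) : Prop :=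
  (poly p n h m).Separable ∧ ∀ c ∈ C, (cartierManin p n N c (poly p n h m)).det ≠ 0

/-- The number `∑ (a_c c / N - a_c (a_c + 1) / (2 n))`, the sum running over `c ∈ C`, with `a_c = dimension n N c`. -/
noncomputable def defect (n N : ℕ) (C : Finset ℕ) : ℝ :=
  ∑ c ∈ C, ((dimension n N c : ℝ) * c / N - (dimension n N c : ℝ) * (dimension n N c + 1) / (2 * n))

/-- The digit number `i` (counted from the right, beginning with `0`) of `n` in base `b`. -/
def digit (b i n : ℕ) : ℕ := n / b ^ i % b

/-- The number which arises from the number `N` with at most `K` digits in base `b`, if for every `i ∈ S`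
the digit number `i` is replaced by `f i`. -/
def change (b K N : ℕ) (f : ℕ → ℕ) (S : Finset ℕ) : ℕ :=
  ∑ i ∈ range K, (if i ∈ S then f i else digit b i N) * b ^ i

open Classical in
/-- The number of the choices of `r` of `K` positions for which the number obtained by
changing the digits of `N` at the chosen positions (according to `f`) does not have the property `E`. -/
noncomputable def exceptions (b K r N : ℕ) (f : ℕ → ℕ) (E : ℕ → Prop) : ℕ :=
  ((powersetCard r (range K)).filter (fun S => ¬ E (change b K N f S))).card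

open Pool.Agent.X22.ND (op mem_op density_one)
open Pool.Agent.X22.CM

section
variable {p : ℕ} [hf : Fact p.Prime]

lemma range_inj (S : Finset ℕ) (hS : S ⊆ range p) : Set.InjOn (fun m : ℕ => (m : ZMod p)) S := by
  intro m hm m' hm' h
  have h1 := mem_range.1 (hS hm)
  have h2 := mem_range.1 (hS hm')
  have h5 := congrArg ZMod.val h
  simp only at h5
  rwa [ZMod.val_cast_of_lt h1, ZMod.val_cast_of_lt h2] at h5

/-- few constant terms give multiple roots -/
lemma nonsep (f₀ : (ZMod p)[X]) (h0 : derivative f₀ ≠ 0) (S : Finset ℕ) (hS : S ⊆ range p)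
    (h : ∀ m ∈ S, ¬ (f₀ + C (m : ZMod p)).Separable) : S.card ≤ (derivative f₀).natDegree := by
  classical
  obtain ⟨Ω, i1, i2, i3⟩ : ∃ (Ω : Type) (_ : Field Ω) (_ : Algebra (ZMod p) Ω), IsAlgClosed Ω :=
    ⟨AlgebraicClosure (ZMod p), inferInstance, inferInstance, inferInstance⟩
  have hsub : S.image (fun m : ℕ => algebraMap (ZMod p) Ω (m : ZMod p)) ⊆
      ((derivative f₀).aroots Ω).toFinset.image (fun ξ => -aeval ξ f₀) := by
    intro z hz
    rw [mem_image] at hz
    obtain ⟨m, hm, rfl⟩ := hz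
    have h1 := h m hm
    rw [separable_def, isCoprime_iff_aeval_ne_zero_of_isAlgClosed (ZMod p) Ω] at h1
    push Not at h1
    obtain ⟨ξ, h2, h3⟩ := h1
    rw [derivative_add, derivative_C, add_zero] at h3
    rw [mem_image]
    refine ⟨ξ, ?_, ?_⟩
    · rw [Multiset.mem_toFinset, mem_aroots]
      exact ⟨h0, h3⟩
    · rw [map_add, aeval_C] at h2
      rw [neg_eq_iff_eq_neg, eq_neg_iff_add_eq_zero]
      exact h2
  have hinj : Set.InjOn (fun m : ℕ => algebraMap (ZMod p) Ω (m : ZMod p)) S := by
    intro m hm m' hm' hmm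
    exact range_inj S hS hm hm' ((algebraMap (ZMod p) Ω).injective hmm)
  rw [← card_image_of_injOn hinj]
  refine (card_le_card hsub).trans (card_image_le.trans ((Multiset.toFinset_card_le _).trans ?_))
  exact (card_roots' _).trans natDegree_map_le

/-- the determinant of one block -/
lemma one_block (n N c : ℕ) (hn : 2 ≤ n) (hN : 2 ≤ N) (hnN : Nat.Coprime n N) (hc1 : 1 ≤ c) (hcN : c < N) (hp : p % (n * N) = 1)
    (h : (ZMod p)[X]) (hh : h.natDegree ≤ n - 1) :
    (cmg p (c * ((p - 1) / N)) (FM n h) (dimension n N c)).det ≠ 0 ∧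
    ((cmg p (c * ((p - 1) / N)) (FM n h) (dimension n N c)).det.natDegree : ℝ) ≤
      ((dimension n N c : ℝ) * c / N - (dimension n N c : ℝ) * (dimension n N c + 1) / (2 * n)) * (p - 1) := by
  obtain ⟨a, ha⟩ : ∃ a, a = dimension n N c := ⟨_, rfl⟩
  have ha' : a = n * c / N := ha
  rw [← ha]
  obtain ⟨s, hs⟩ : ∃ s, p = n * N * s + 1 := ⟨p / (n * N), by
    have := Nat.div_add_mod p (n * N)
    rw [hp] at this
    exact this.symm⟩
  have hp1 := hf.out.one_lt
  have hs1 : 1 ≤ s := by
    by_contra h0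
    have : s = 0 := by omega
    rw [this, mul_zero] at hs
    omega
  have hN0 : 0 < N := by omega
  have hpN : (p - 1) / N = n * s := by
    rw [hs, Nat.add_sub_cancel, mul_comm n N, mul_assoc, Nat.mul_div_cancel_left _ hN0]
  obtain ⟨e, he⟩ : ∃ e, e = c * ((p - 1) / N) := ⟨_, rfl⟩
  rw [← he]
  have hen : e = c * (n * s) := by rw [he, hpN]
  have haN : a * N ≤ n * c := by rw [ha']; exact Nat.div_mul_le_self _ _
  have haN' : a * N < n * c := by
    refine lt_of_le_of_ne haN (fun h0 => ?_)
    have h1 : N ∣ n * c := ⟨a, by rw [← h0, mul_comm]⟩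
    have h2 : N ∣ c := hnN.symm.dvd_of_dvd_mul_left h1
    exact absurd (Nat.le_of_dvd (by omega) h2) (by omega)
  have han : a < n := by
    by_contra h0
    push Not at h0
    have h1 : n * N ≤ a * N := Nat.mul_le_mul_right _ h0
    have h2 : n * c < n * N := Nat.mul_lt_mul_of_pos_left hcN (by omega)
    omega
  have hns : 1 ≤ n * s := Nat.mul_pos (by omega) (by omega)
  have hmain := det_deg' (p := p) n a e (N * s) han (by rw [hen]; exact Nat.mul_pos hc1 hns)
    (by
      rw [hen, hs]
      have h1 : c * (n * s) ≤ N * (n * s) := Nat.mul_le_mul_right _ hcN.le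
      have h2 : N * (n * s) = n * N * s := by ring
      omega)
    (by rw [hs]; ring)
    (by
      rw [hen]
      calc a * (N * s) = (a * N) * s := by ring
        _ ≤ (n * c) * s := Nat.mul_le_mul_right _ haN
        _ = c * (n * s) := by ring)
    (by
      rw [hen, hs]
      have h1 : (a * N + 1) * (n * s) ≤ (n * c) * (n * s) := Nat.mul_le_mul_right _ haN'
      have h2 : a ≤ n * s := by
        calc a ≤ n * 1 := by omega
          _ ≤ n * s := Nat.mul_le_mul_left _ hs1
      have h3 : a * (n * N * s + 1) = a * N * (n * s) + a := by ring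
      have h4 : (a * N + 1) * (n * s) = a * N * (n * s) + n * s := by ring
      have h5 : n * (c * (n * s)) = (n * c) * (n * s) := by ring
      omega) h hh
  refine ⟨hmain.1, ?_⟩
  have h1 := hmain.2
  have hnR : (0 : ℝ) < n := by exact_mod_cast (by omega : 0 < n)
  have hNR : (0 : ℝ) < N := by exact_mod_cast hN0
  have h2 : 2 * (n : ℝ) * ((cmg p e (FM n h) a).det.natDegree : ℝ) + (p - 1) * (a * (a + 1)) ≤ 2 * a * (n * e) := by
    have h3 : (((2 * n * (cmg p e (FM n h) a).det.natDegree + (p - 1) * (a * (a + 1)) : ℕ)) : ℝ) ≤ ((2 * a * (n * e) : ℕ) : ℝ) := by exact_mod_cast h1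
    push_cast [Nat.cast_sub hp1.le] at h3
    exact h3
  have h4 : (e : ℝ) = c * (p - 1) / N := by
    have h5 : ((p : ℝ) - 1) = n * N * s := by
      have : (p : ℝ) = n * N * s + 1 := by exact_mod_cast hs
      linarith
    rw [h5, hen]
    push_cast
    field_simp
  rw [h4] at h2
  have h6 : ((a : ℝ) * c / N - (a : ℝ) * (a + 1) / (2 * n)) * (p - 1) = (2 * a * (n * (c * (p - 1) / N)) - (p - 1) * (a * (a + 1))) / (2 * n) := by
    field_simp
  rw [h6, le_div_iff₀ (by positivity)]
  linarith

lemma bad_card (n N : ℕ) (C : Finset ℕ) (hn : 2 ≤ n) (hN : 2 ≤ N) (hnN : Nat.Coprime n N) (hC : ∀ c ∈ C, 1 ≤ c ∧ c < N) (hp : p % (n * N) = 1)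
    (h : ℤ[X]) (hh : h.natDegree ≤ n - 1) (D : DecidablePred fun m => ¬ Ordinary p n N C h m) :
    ((@Finset.filter ℕ (fun m => ¬ Ordinary p n N C h m) D (range p)).card : ℝ) ≤ defect n N C * p + (n + |defect n N C|) := by
  classical
  obtain ⟨h', hh'⟩ : ∃ h', h' = h.map (Int.castRingHom (ZMod p)) := ⟨_, rfl⟩
  have hd' : h'.natDegree ≤ n - 1 := by
    rw [hh']
    exact natDegree_map_le.trans hh
  obtain ⟨Q, hQ⟩ : ∃ Q : ℕ → (ZMod p)[X], ∀ c, Q c = (cmg p (c * ((p - 1) / N)) (FM n h') (dimension n N c)).det := ⟨_, fun _ => rfl⟩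
  have hdet : ∀ c ∈ C, Q c ≠ 0 ∧ ((Q c).natDegree : ℝ) ≤ ((dimension n N c : ℝ) * c / N - (dimension n N c : ℝ) * (dimension n N c + 1) / (2 * n)) * (p - 1) := by
    intro c hc
    rw [hQ]
    exact one_block n N c hn hN hnN (hC c hc).1 (hC c hc).2 hp h' hd'
  have hev : ∀ (m c : ℕ), (cartierManin p n N c (poly p n h m)).det = (Q c).eval (m : ZMod p) := by
    intro m c
    have e1 := cmg_map p (c * ((p - 1) / N)) (evalRingHom (m : ZMod p)) (FM n h') (dimension n N c)
    rw [FM_map, ← hQ, coe_evalRingHom] at e1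
    rw [e1, hh']
    rfl
  have hnN2 : n ≤ n * N := Nat.le_mul_of_pos_right n (by omega)
  have hpn : n < p := by
    by_contra hcon
    push Not at hcon
    have h1 : p ≤ n * N := hcon.trans hnN2
    rcases h1.lt_or_eq with h3 | h3
    · rw [Nat.mod_eq_of_lt h3] at hp
      exact absurd hp hf.out.one_lt.ne'
    · rw [h3, Nat.mod_self] at hp
      omega
  have hder : derivative (X ^ n + h') ≠ 0 := by
    intro h0
    have h3 := congrArg (fun P : (ZMod p)[X] => P.coeff (n - 1)) h0
    simp only [coeff_derivative, coeff_add, coeff_X_pow, coeff_zero] at h3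
    rw [if_pos (by omega), coeff_eq_zero_of_natDegree_lt (by omega : h'.natDegree < n - 1 + 1), add_zero, one_mul] at h3
    have h4 : ((n : ℕ) : ZMod p) = 0 := by
      have h5 : n = n - 1 + 1 := by omega
      rw [h5]
      push_cast
      exact h3
    rw [ZMod.natCast_eq_zero_iff] at h4
    exact absurd (Nat.le_of_dvd (by omega) h4) (by omega)
  have hsub : @Finset.filter ℕ (fun m => ¬ Ordinary p n N C h m) D (range p) ⊆
      ((range p).filter (fun m => ¬ (X ^ n + h' + Polynomial.C (m : ZMod p)).Separable)) ∪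
      C.biUnion (fun c => (range p).filter (fun m => (Q c).eval ((m : ℕ) : ZMod p) = 0)) := by
    intro m hm
    rw [mem_filter] at hm
    rw [mem_union, mem_filter, mem_biUnion]
    by_cases h3 : (X ^ n + h' + Polynomial.C (m : ZMod p)).Separable
    · right
      by_contra h4
      push Not at h4
      apply hm.2
      refine ⟨?_, ?_⟩
      · unfold poly
        rw [← hh']
        exact h3
      · intro c hc
        rw [hev]
        intro h5
        exact h4 c hc (mem_filter.2 ⟨hm.1, h5⟩)
    · left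
      exact ⟨hm.1, h3⟩
  have h5 : ((range p).filter (fun m : ℕ => ¬ (X ^ n + h' + Polynomial.C (m : ZMod p)).Separable)).card ≤ n := by
    refine (nonsep (X ^ n + h') hder _ (filter_subset _ _) (fun m hm => (mem_filter.1 hm).2)).trans ?_
    refine (natDegree_derivative_le _).trans ?_
    have : (X ^ n + h' : (ZMod p)[X]).natDegree ≤ n := by
      apply natDegree_add_le_of_degree_le
      · rw [natDegree_X_pow]
      · omega
    omega
  have h6 : ∀ c ∈ C, ((range p).filter (fun m => (Q c).eval ((m : ℕ) : ZMod p) = 0)).card ≤ (Q c).natDegree := by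
    intro c hc
    rw [← card_image_of_injOn (range_inj _ (filter_subset _ _))]
    refine (card_le_card (t := (Q c).roots.toFinset) ?_).trans ((Multiset.toFinset_card_le _).trans (card_roots' (Q c)))
    intro z hz
    rw [mem_image] at hz
    obtain ⟨m, hm, rfl⟩ := hz
    rw [Multiset.mem_toFinset, mem_roots (hdet c hc).1]
    exact (mem_filter.1 hm).2
  have h7 := (card_le_card hsub).trans (card_union_le _ _)
  have h8 : (C.biUnion (fun c => (range p).filter (fun m => (Q c).eval ((m : ℕ) : ZMod p) = 0))).card ≤ ∑ c ∈ C, (Q c).natDegree :=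
    card_biUnion_le.trans (sum_le_sum h6)
  have h9 : ((@Finset.filter ℕ (fun m => ¬ Ordinary p n N C h m) D (range p)).card : ℝ) ≤ n + ((∑ c ∈ C, (Q c).natDegree : ℕ) : ℝ) := by
    exact_mod_cast h7.trans (Nat.add_le_add h5 h8)
  have h10 : ((∑ c ∈ C, (Q c).natDegree : ℕ) : ℝ) ≤ defect n N C * (p - 1) := by
    unfold defect
    push_cast
    rw [sum_mul]
    exact sum_le_sum (fun c hc => (hdet c hc).2)
  have h11 := neg_abs_le (defect n N C)
  linarith

end

lemma ordinary_mod (p n N : ℕ) (C : Finset ℕ) (h : ℤ[X]) (m : ℕ) : Ordinary p n N C h m ↔ Ordinary p n N C h (m % p) := by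
  unfold Ordinary poly
  rw [ZMod.natCast_mod]

lemma defect_nonneg (n N : ℕ) (C : Finset ℕ) (hn : 2 ≤ n) (hN : 2 ≤ N) : 0 ≤ defect n N C := by
  unfold defect
  apply sum_nonneg
  intro c hc
  obtain ⟨a, ha⟩ : ∃ a, a = dimension n N c := ⟨_, rfl⟩
  rw [← ha]
  have ha' : a = n * c / N := ha
  have hnR : (0 : ℝ) < n := by exact_mod_cast (by omega : 0 < n)
  have hNR : (0 : ℝ) < N := by exact_mod_cast (by omega : 0 < N)
  rcases Nat.eq_zero_or_pos a with h0 | h0
  · rw [h0]
    simp
  · have haN : (a : ℝ) * N ≤ n * c := by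
      have : a * N ≤ n * c := by rw [ha']; exact Nat.div_mul_le_self _ _
      exact_mod_cast this
    have ha1 : (1 : ℝ) ≤ a := by exact_mod_cast h0
    have h1 : (a : ℝ) * (a + 1) / (2 * n) ≤ a * c / N := by
      rw [div_le_div_iff₀ (by positivity) hNR]
      have h2 : ((a : ℝ) + 1) * N ≤ 2 * (n * c) := by nlinarith
      have h3 := mul_le_mul_of_nonneg_left h2 (by linarith : (0 : ℝ) ≤ a)
      nlinarith
    linarith

open Classical in
/-- **Ordinary summands of superelliptic Jacobians in thin families.** Let a base `b ≥ 2`, an integer `N ≥ 3`, a degree `n ≥ 2` prime to `N`, a set `C` of integers `0 < c < N` (a set of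
characters of `μ_N`), `δ > 0` and an integer `A ≥ 0` be given. There are `c₀ > 0` and `y₀` such that for
all integers `r`, `K`, `y` with `2 r ≤ K` and `y ≥ y₀` the following holds.

Let `0 ≤ M < b ^ K` be an arbitrary integer, prescribe for every position `j` a digit `d j` different from the digit of
`M` in base `b`, and let `H x` be for every `x` any set of at most `x ^ A` pairs of a polynomial `h` with integral coefficients of degree less than `n` and a
set `P` of integers.
If one chooses `r` of the `K` positions and replaces the digits of `M` at these positions, then for all but at most a proportion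
`1 / y ^ A` of the choices the number `m` obtained has the following property: for all integers `x` with
`y ≤ x ≤ exp (c₀ r)` and all `(h, P) ∈ H x` the number of the primes `p ≤ x` in `P`, `p ≡ 1` modulo `n N`, at which the curve `Y ^ N = X ^ n + h (X) + m` has good
reduction and the blocks of its Cartier–Manin matrix for the characters in `C` are all invertible is at least `1 - defect n N C` times the number of all primes `p ≤ x` in `P`,
`p ≡ 1` modulo `n N`, up to an error of at most `x ^ (1 / 2 + δ)`. -/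
theorem result (b n N : ℕ) (C : Finset ℕ) (hb : 2 ≤ b) (hn : 2 ≤ n) (hN : 3 ≤ N) (hnN : Nat.Coprime n N) (hC : ∀ c ∈ C, 1 ≤ c ∧ c < N)
    (δ : ℝ) (hδ : 0 < δ) (A : ℕ) :
    ∃ c₀ : ℝ, 0 < c₀ ∧ ∃ y₀ : ℕ,
    ∀ K r y : ℕ, 2 * r ≤ K → y₀ ≤ y →
    ∀ M : ℕ, M < b ^ K → ∀ d : ℕ → ℕ, (∀ j, d j < b ∧ d j ≠ digit b j M) →
    ∀ (H : ℕ → Finset (ℤ[X] × Finset ℕ)), (∀ x, ∀ q ∈ H x, q.1.natDegree ≤ n - 1) → (∀ x, (H x).card ≤ x ^ A) →
      (exceptions b K r M d (fun m => ∀ x : ℕ, y ≤ x → (x : ℝ) ≤ Real.exp (c₀ * r) → ∀ q ∈ H x,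
        (1 - defect n N C) * (((range (x + 1)).filter (fun p => p ∈ q.2 ∧ p.Prime ∧ p % (n * N) = 1)).card : ℝ) - (x : ℝ) ^ (1 / 2 + δ) ≤
          ((range (x + 1)).filter (fun p => (p ∈ q.2 ∧ p.Prime ∧ p % (n * N) = 1) ∧ Ordinary p n N C q.1 m)).card) : ℝ) ≤
        1 / (y : ℝ) ^ A * (K.choose r : ℝ) := by
  obtain ⟨c, hc, y₀, h⟩ := density_one b hb δ hδ A A (n + |defect n N C|) (by positivity)
  refine ⟨c, hc, y₀ + 2, fun K r y hrK hy M hM d hd H hH1 hH => ?_⟩
  have hp2 : ∀ p : ℕ, p % (n * N) = 1 → p ≠ 2 := by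
    rintro p hp rfl
    have h6 : 2 * 3 ≤ n * N := Nat.mul_le_mul hn hN
    rw [Nat.mod_eq_of_lt (by omega)] at hp
    omega
  have h2 := h K r y hrK (by omega) M hM d hd (ℤ[X] × Finset ℕ) H (fun x _ => hH x)
    (fun x q => (range (x + 1)).filter (fun p => p ∈ q.2 ∧ p.Prime ∧ p % (n * N) = 1))
    (by
      intro x q p hp
      rw [mem_filter, mem_range] at hp
      rw [mem_op]
      exact ⟨by omega, hp.2.2.1, hp2 p hp.2.2.2⟩)
    (fun q p m => ¬ Ordinary p n N C q.1 m) (fun q p m _ => by rw [ordinary_mod]) (fun _ => defect n N C)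
    (fun _ => defect_nonneg n N C hn (by omega))
    (by
      intro x _ q hq p hp
      rw [mem_filter] at hp
      have hf : Fact p.Prime := ⟨hp.2.2.1⟩
      exact bad_card (p := p) n N C hn (by omega) hnN hC hp.2.2.2 q.1 (hH1 x q hq) _)
    (fun m => ∀ x : ℕ, y ≤ x → (x : ℝ) ≤ Real.exp (c * r) → ∀ q ∈ H x,
        (1 - defect n N C) * (((range (x + 1)).filter (fun p => p ∈ q.2 ∧ p.Prime ∧ p % (n * N) = 1)).card : ℝ) - (x : ℝ) ^ (1 / 2 + δ) ≤
          ((range (x + 1)).filter (fun p => (p ∈ q.2 ∧ p.Prime ∧ p % (n * N) = 1) ∧ Ordinary p n N C q.1 m)).card)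
    (by
      intro m hm x hyx hxr q hq
      have h3 : (((((range (x + 1)).filter (fun p => p ∈ q.2 ∧ p.Prime ∧ p % (n * N) = 1)).filter (fun p => ¬ Ordinary p n N C q.1 m)).card : ℕ) : ℝ) ≤
          defect n N C * ((((range (x + 1)).filter (fun p => p ∈ q.2 ∧ p.Prime ∧ p % (n * N) = 1)).card : ℕ) : ℝ) + (x : ℝ) ^ (1 / 2 + δ) := by
        convert hm x hyx hxr q hq
      have h4 : ((range (x + 1)).filter (fun p => (p ∈ q.2 ∧ p.Prime ∧ p % (n * N) = 1) ∧ Ordinary p n N C q.1 m)).card +
          (((range (x + 1)).filter (fun p => p ∈ q.2 ∧ p.Prime ∧ p % (n * N) = 1)).filter (fun p => ¬ Ordinary p n N C q.1 m)).card =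
          ((range (x + 1)).filter (fun p => p ∈ q.2 ∧ p.Prime ∧ p % (n * N) = 1)).card := by
        rw [← filter_filter (fun p => p ∈ q.2 ∧ p.Prime ∧ p % (n * N) = 1) (fun p => Ordinary p n N C q.1 m)]
        exact card_filter_add_card_filter_not _
      have h5 : ((((range (x + 1)).filter (fun p => (p ∈ q.2 ∧ p.Prime ∧ p % (n * N) = 1) ∧ Ordinary p n N C q.1 m)).card : ℕ) : ℝ) +
          (((((range (x + 1)).filter (fun p => p ∈ q.2 ∧ p.Prime ∧ p % (n * N) = 1)).filter (fun p => ¬ Ordinary p n N C q.1 m)).card : ℕ) : ℝ) =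
          ((((range (x + 1)).filter (fun p => p ∈ q.2 ∧ p.Prime ∧ p % (n * N) = 1)).card : ℕ) : ℝ) := by exact_mod_cast h4
      linarith)
  unfold exceptions
  exact h2

end Pool.Agent.Results.MP_0dad22_ag.FewDigitSuperelliptic
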