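import Pool.Agent.X35.OR.BoxS

/-!
# Ordinary reduction of the summands of `H ^ 1` of `r` superelliptic curves `Y ^ {N_j} = X ^ {n_j} + h_j (X) + m_j` with independent parameters, at a positive
proportion `∏ (1 - defect_j)` of the primes, for almost all vectors `m` of every box
-/

set_option autoImplicit false

namespace Pool.Agent.Results.MP_0dad22_ag.IndependentParameters

open Finset Polynomial

/-- The polynomial `X ^ n + h (X) + m` modulo `p`. -/
noncomputable def poly (p n : ℕ) (h : ℤ[X]) (m : ℤ) : (ZMod p)[X] :=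
  X ^ n + h.map (Int.castRingHom (ZMod p)) + C (m : ZMod p)

/-- The number of the differentials `X ^ (i - 1) dX / Y ^ c`, `1 ≤ i`, on the curve `Y ^ N = f (X)`, `deg f = n` prime to `N`, `0 < c < N`, which have no poles: the integral
part of `n c / N`. -/
def dimension (n N c : ℕ) : ℕ := n * c / N

/-- The block with the number `c` of the Cartier–Manin matrix of the curve `Y ^ N = f (X)` modulo the prime `p ≡ 1` modulo `N`, for the differentials `X ^ (i - 1) dX / Y ^ c`: the entry with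
the number `(i, j)`, `i, j ≥ 1`, is the coefficient of `X ^ (i p - j)` in `f (X) ^ (c (p - 1) / N)`. -/
noncomputable def cartierManin (p n N c : ℕ) (f : (ZMod p)[X]) : Matrix (Fin (dimension n N c)) (Fin (dimension n N c)) (ZMod p) :=
  fun i j => (f ^ (c * ((p - 1) / N))).coeff (((i : ℕ) + 1) * p - ((j : ℕ) + 1))

/-- The curve `Y ^ N = X ^ n + h (X) + m` has good reduction at `p`, and the blocks of the Cartier–Manin matrix with the numbers `c ∈ S` are invertible. -/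
def Ordinary (p n N : ℕ) (S : Finset ℕ) (h : ℤ[X]) (m : ℤ) : Prop :=
  (poly p n h m).Separable ∧ ∀ c ∈ S, (cartierManin p n N c (poly p n h m)).det ≠ 0

/-- The number `∑ (a_c c / N - a_c (a_c + 1) / (2 n))`, the sum running over `c ∈ S`, with `a_c = dimension n N c`. -/
noncomputable def defect (n N : ℕ) (S : Finset ℕ) : ℝ :=
  ∑ c ∈ S, ((dimension n N c : ℝ) * c / N - (dimension n N c : ℝ) * (dimension n N c + 1) / (2 * n))

/-- **Ordinary summands for independent parameters.** Let coprime `n_j, N_j ≥ 2` and sets `S_j` of integers `0 < c < N_j` (sets of characters of `μ_{N_j}`) with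
`defect n_j N_j S_j ≤ 1` (`j ≤ r`), `δ > 0` and `A` be given. There are `κ > 0`, `C > 0` and `L₀` such that for all
`L ≥ L₀`, all integers `M_j`, all `L_j ≥ L` (`j ≤ r`) and all choices of at most `x ^ A` pairs `(h, P) ∈ H x` of a vector of polynomials `h_j` with integral
coefficients of degree less than `n_j` and a set `P` of integers for every `x ≥ 2`, the following holds for all but at most
`L ^ (- κ) ∏ L_j` of the vectors `m` of integers with `M_j ≤ m_j < M_j + L_j` for all `j`.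

For ALL integers `x` with `(log L) ^ C ≤ x ≤ L ^ κ` and ALL `(h, P) ∈ H x` the number of the primes `p ≤ x` in `P`, `p ≡ 1` modulo `n_j N_j` for all `j`, at which for ALL
`j` the curve `Y ^ {N_j} = X ^ {n_j} + h_j (X) + m_j` has good reduction and the blocks of its Cartier–Manin matrix for the characters in `S_j` are invertible is at
least `∏ (1 - defect n_j N_j S_j)` times the number of all primes `p ≤ x` in `P`, `p ≡ 1` modulo `n_j N_j` for all `j`, up to an error of at most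
`x ^ (1 / 2 + δ)`. -/
theorem result (r : ℕ) (n N : Fin r → ℕ) (S : Fin r → Finset ℕ) (hnN : ∀ j, 2 ≤ n j ∧ 2 ≤ N j ∧ Nat.Coprime (n j) (N j))
    (hS : ∀ j, ∀ c ∈ S j, 1 ≤ c ∧ c < N j) (hdef : ∀ j, defect (n j) (N j) (S j) ≤ 1) (δ A : ℝ) (hδ : 0 < δ) :
    ∃ κ C : ℝ, 0 < κ ∧ 0 < C ∧ ∃ L₀ : ℕ, ∀ L : ℕ, L₀ ≤ L →
    ∀ (H : ℕ → Finset ((Fin r → ℤ[X]) × Set ℕ)), (∀ x, 2 ≤ x → ((H x).card : ℝ) ≤ (x : ℝ) ^ A) →
    (∀ x, ∀ c ∈ H x, ∀ j, (c.1 j).natDegree < n j) →
    ∀ (M : Fin r → ℤ) (Ls : Fin r → ℕ), (∀ j, L ≤ Ls j) →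
      ({m : Fin r → ℤ | (∀ j, M j ≤ m j ∧ m j < M j + Ls j) ∧ ¬ ∀ x : ℕ, Real.log L ^ C ≤ x → (x : ℝ) ≤ (L : ℝ) ^ κ → ∀ c ∈ H x,
        (∏ j, (1 - defect (n j) (N j) (S j))) * ({p : ℕ | p ≤ x ∧ p.Prime ∧ p ≠ 2 ∧ p ∈ c.2 ∧ ∀ j, p % (n j * N j) = 1}.ncard : ℝ) -
            (x : ℝ) ^ (1 / 2 + δ) ≤
          ({p : ℕ | p ≤ x ∧ p.Prime ∧ p ≠ 2 ∧ p ∈ c.2 ∧ (∀ j, p % (n j * N j) = 1) ∧
            ∀ j, Ordinary p (n j) (N j) (S j) (c.1 j) (m j)}.ncard : ℝ)}.ncard : ℝ) ≤
      (L : ℝ) ^ (-κ) * ∏ j, (Ls j : ℝ) := by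
  classical
  have hd0 : ∀ j, 0 ≤ defect (n j) (N j) (S j) := fun j => Pool.Agent.X35.OR.defect_nonneg (n j) (N j) (S j) (hnN j).1 (hnN j).2.1
  have hle : ∏ j, (1 - defect (n j) (N j) (S j)) ≤ 1 :=
    prod_le_one (fun j _ => by have := hdef j; linarith) fun j _ => by have := hd0 j; linarith
  obtain ⟨ε, hε⟩ : ∃ ε : ℝ, ε = ∑ j, ((n j : ℝ) + |Pool.Agent.X35.OR.defect (n j) (N j) (S j)|) := ⟨_, rfl⟩
  have hε0 : 0 ≤ ε := by rw [hε]; exact sum_nonneg fun j _ => by positivity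
  obtain ⟨κ, C, hκ, hC, L₀, HH⟩ := Pool.Agent.X35.OR.dens_box r δ A (1 - ∏ j, (1 - defect (n j) (N j) (S j))) (r * ε) hδ (by linarith) (by positivity)
  refine ⟨κ, C, hκ, hC, L₀, fun L hL H hH hdeg M Ls hLs => ?_⟩
  have hmain := HH L hL (Fin r → ℤ[X]) H hH (fun _ p => ∀ j, p % (n j * N j) = 1)
    (fun h p m => ¬ ∀ j, Pool.Agent.X35.OR.OrdS p (n j) (N j) (S j) (h j) (m j))
    (fun x c _ p _ _ _ m m' h => by
      rw [not_iff_not]
      exact forall_congr' fun j => Pool.Agent.X35.OR.ordS_mod p _ _ _ _ _ _ (h j))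
    (fun x c hc p hp _ hR => by
      have hf : Fact p.Prime := ⟨hp⟩
      refine Pool.Agent.X35.OR.prob_coord p r hp.one_lt.le (fun j m => Pool.Agent.X35.OR.OrdS p (n j) (N j) (S j) (c.1 j) m)
        (fun j => 1 - defect (n j) (N j) (S j)) ε hε0 (fun j => by
          have h1 := hdef j
          have h2 := hd0 j
          constructor <;> linarith) (fun j => ?_)
      have h5 := Pool.Agent.X35.OR.bad_sup (p := p) (n j) (N j) (S j) (hnN j).1 (hnN j).2.1 (hnN j).2.2 (hS j) (hR j) (c.1 j) (by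
        have := hdeg x c hc j
        omega)
      have h6 := card_filter_add_card_filter_not (s := range p) (p := fun m : ℕ => Pool.Agent.X35.OR.OrdS p (n j) (N j) (S j) (c.1 j) (m : ℤ))
      rw [card_range] at h6
      have h7 : (((range p).filter (fun m : ℕ => Pool.Agent.X35.OR.OrdS p (n j) (N j) (S j) (c.1 j) (m : ℤ))).card : ℝ) +
          (((range p).filter (fun m : ℕ => ¬ Pool.Agent.X35.OR.OrdS p (n j) (N j) (S j) (c.1 j) (m : ℤ))).card : ℝ) = p := by exact_mod_cast h6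
      have h8 : (n j : ℝ) + |Pool.Agent.X35.OR.defect (n j) (N j) (S j)| ≤ ε := by
        rw [hε]
        exact single_le_sum (f := fun j => (n j : ℝ) + |Pool.Agent.X35.OR.defect (n j) (N j) (S j)|) (fun j _ => by positivity) (mem_univ j)
      have h9 : (((range p).filter (fun m : ℕ => ¬ Pool.Agent.X35.OR.OrdS p (n j) (N j) (S j) (c.1 j) (m : ℤ))).card : ℝ) ≤
          defect (n j) (N j) (S j) * p + (n j + |Pool.Agent.X35.OR.defect (n j) (N j) (S j)|) := h5
      have h10 : (1 - defect (n j) (N j) (S j)) * p - ε ≤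
          (((range p).filter (fun m : ℕ => Pool.Agent.X35.OR.OrdS p (n j) (N j) (S j) (c.1 j) (m : ℤ))).card : ℝ) := by linarith
      refine h10.trans (le_of_eq ?_)
      congr!) M Ls hLs
  refine le_trans (le_of_eq ?_) hmain
  have e1 : ∀ (x : ℕ) (P : Set ℕ), ({p : ℕ | p ≤ x ∧ p.Prime ∧ p ≠ 2 ∧ p ∈ P ∧ ∀ j, p % (n j * N j) = 1}.ncard : ℝ) =
      ((Pool.Agent.X35.OR.sel x P (fun p => ∀ j, p % (n j * N j) = 1)).card : ℝ) := by
    intro x P
    rw [← Set.ncard_coe_finset]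
    congr 2
    ext p
    rw [mem_coe, Pool.Agent.X35.OR.mem_sel, Set.mem_ofPred_eq]
  have e2 : ∀ (x : ℕ) (P : Set ℕ) (h : Fin r → ℤ[X]) (m : Fin r → ℤ),
      ({p : ℕ | p ≤ x ∧ p.Prime ∧ p ≠ 2 ∧ p ∈ P ∧ (∀ j, p % (n j * N j) = 1) ∧ ∀ j, Ordinary p (n j) (N j) (S j) (h j) (m j)}.ncard : ℝ) =
      ((Pool.Agent.X35.OR.sel x P (fun p => (∀ j, p % (n j * N j) = 1) ∧
        ¬ ¬ ∀ j, Pool.Agent.X35.OR.OrdS p (n j) (N j) (S j) (h j) (m j))).card : ℝ) := by
    intro x P h m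
    rw [← Set.ncard_coe_finset]
    congr 2
    ext p
    rw [mem_coe, Pool.Agent.X35.OR.mem_sel, Set.mem_ofPred_eq, not_not]
    rfl
  simp only [e1, e2, sub_sub_cancel]

end Pool.Agent.Results.MP_0dad22_ag.IndependentParameters
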