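import Pool.Agent.Results.MP_0dad22_ag.SuperellipticNearSequences
import Pool.Agent.X124.RP.DensP

/-!
# Ordinary reduction of summands of `H ^ 1` of superelliptic curves, for the members at real powers and at denominators of
Diophantine approximations

The members of the families `Y ^ {N_j} = X ^ {n_j} + h_j (X) + m` are those for the integers `m` with `|m| = M`, where `M` is
the denominator of a good rational approximation to a generic real number (for instance of a convergent of its continued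
fraction expansion), the common denominator of a good approximation to a generic point of `ℝ ^ d`, or a natural number
near `t ^ k` or near `k ^ t` for a generic real number `t`.
-/

set_option autoImplicit false

namespace Pool.Agent.Results.MP_0dad22_ag.PowersAndDenominators

open Finset Polynomial
open SuperellipticNearSequences (Ordinary defect)
open Pool.Agent.X124.RP (AtPowers AtExponents AtDenominators AtApproximations)

/-- The data of a system: `r`, and for `j ≤ r` the numbers `n_j`, `N_j`, the set `S_j` and the polynomial `h_j`. -/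
abbrev System : Type := Σ r : ℕ, (Fin r → (ℕ × ℕ) × Finset ℕ × ℤ[X])

/-- The assertion for the members with the parameters `m = M` and `m = -M` of a system with coprime `n_j, N_j ≥ 2`, a set `S_j`
of integers `0 < c < N_j` and `deg h_j < n_j`: for ALL integers `x` with `(log M) ^ C ≤ x ≤ M ^ κ` and ALL sets `P ∈ H x`, the
number of the primes `p ≤ x` in `P`, `p ≡ 1` modulo `n_j N_j` for all `j`, at which for ALL `j` the curve
`Y ^ {N_j} = X ^ {n_j} + h_j (X) + m` has good reduction and the blocks of its Cartier–Manin matrix for the characters in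
`S_j` are invertible is at least `1 - ∑ defect n_j N_j S_j` times the number of all these primes `p ≤ x` in `P`,
up to an error of at most `x ^ (1 / 2 + δ)`. -/
def Good (κ C δ : ℝ) (H : ℕ → Finset (Set ℕ)) (c : System) (M : ℕ) : Prop :=
  (∀ j, 2 ≤ (c.2 j).1.1 ∧ 2 ≤ (c.2 j).1.2 ∧ Nat.Coprime (c.2 j).1.1 (c.2 j).1.2 ∧
    (∀ e ∈ (c.2 j).2.1, 1 ≤ e ∧ e < (c.2 j).1.2) ∧ (c.2 j).2.2.natDegree < (c.2 j).1.1) →
  ∀ m : ℤ, m.natAbs = M → ∀ x : ℕ, Real.log M ^ C ≤ x → (x : ℝ) ≤ (M : ℝ) ^ κ → ∀ P ∈ H x,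
    (1 - ∑ j, defect (c.2 j).1.1 (c.2 j).1.2 (c.2 j).2.1) *
        ({p : ℕ | p ≤ x ∧ p.Prime ∧ p ≠ 2 ∧ p ∈ P ∧ ∀ j, p % ((c.2 j).1.1 * (c.2 j).1.2) = 1}.ncard : ℝ) -
        (x : ℝ) ^ (1 / 2 + δ) ≤
      ({p : ℕ | p ≤ x ∧ p.Prime ∧ p ≠ 2 ∧ p ∈ P ∧ (∀ j, p % ((c.2 j).1.1 * (c.2 j).1.2) = 1) ∧
        ∀ j, Ordinary p (c.2 j).1.1 (c.2 j).1.2 (c.2 j).2.1 (c.2 j).2.2 m}.ncard : ℝ)

/-- Let `δ > 0` and `A` be given. There are `0 < κ ≤ 1 / 2` and `C > 0` such that for all choices of at most `x ^ A` sets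
`P ∈ H x` of integers for every `x ≥ 2`, with `s = 1 - κ`:

(1) near real powers: if `κ_n / log n → ∞` and `0 ≤ θ < 1` then for all `t > 1` outside a set of Hausdorff dimension at most
`s / (1 - θ)`, and for almost all `t > 1` if `θ < κ`, the assertion `Good` holds for ALL systems at all `M` with
`|M - t ^ κ_n| ≤ t ^ (θ κ_n)`, for all large `n`;
(2) near `n ^ t`: the same for all `t ≥ b` outside a set of dimension at most `(s + 1 / b) / (1 - θ)`, and for almost all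
`t > 1 / (κ - θ)` if `θ < κ`;
(3) at denominators: if `θ, y ∈ ℝ ^ d`, `θ_i ≥ 0` and `θ_1 + ... + θ_d > s`, then for almost all `x ∈ ℝ ^ d` the assertion
holds for ALL systems at all large `q` such that `q x_i` is within `q ^ (-θ_i)` of `y_i` modulo `1`, for all `i`;
(4) for `d = 1` and all `θ ≥ 0` this is true for all `x` outside a set of dimension at most `(1 + s) / (1 + θ)`. -/
theorem result (δ A : ℝ) (hδ : 0 < δ) : ∃ κ C : ℝ, 0 < κ ∧ κ ≤ 1 / 2 ∧ 0 < C ∧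
    ∀ (H : ℕ → Finset (Set ℕ)), (∀ x, 2 ≤ x → ((H x).card : ℝ) ≤ (x : ℝ) ^ A) →
      AtPowers (Good κ C δ H) (1 - κ) ∧ AtExponents (Good κ C δ H) (1 - κ) ∧
      AtDenominators (Good κ C δ H) (1 - κ) ∧ AtApproximations (Good κ C δ H) (1 - κ) := by
  classical
  obtain ⟨κ, C, hκ, hκ1, hC, HH⟩ := Pool.Agent.X124.RP.densP δ A hδ
  refine ⟨κ, C, hκ, hκ1, hC, fun H hH => ?_⟩
  have hc0 : Countable ℤ[X] := Pool.Agent.X35.GM.countable_int_poly
  refine Pool.Agent.X124.RP.many (Good κ C δ H) (by linarith) fun c => ?_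
  obtain ⟨Rc, hRc⟩ : ∃ Rc : System → Prop, Rc = fun c => ∀ j, 2 ≤ (c.2 j).1.1 ∧ 2 ≤ (c.2 j).1.2 ∧
      Nat.Coprime (c.2 j).1.1 (c.2 j).1.2 ∧ (∀ e ∈ (c.2 j).2.1, 1 ≤ e ∧ e < (c.2 j).1.2) ∧ (c.2 j).2.2.natDegree < (c.2 j).1.1 := ⟨_, rfl⟩
  have hmainS := HH H hH System
    (fun c p => Rc c ∧ ∀ j, p % ((c.2 j).1.1 * (c.2 j).1.2) = 1)
    (fun c p m => ¬ ∀ j, Pool.Agent.X35.OR.OrdS p (c.2 j).1.1 (c.2 j).1.2 (c.2 j).2.1 (c.2 j).2.2 m)
    (fun c => |∑ j, Pool.Agent.X35.OR.defect (c.2 j).1.1 (c.2 j).1.2 (c.2 j).2.1|)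
    (fun c => ∑ j, (((c.2 j).1.1 : ℝ) + |Pool.Agent.X35.OR.defect (c.2 j).1.1 (c.2 j).1.2 (c.2 j).2.1|))
    (fun c => ⟨abs_nonneg _, sum_nonneg fun j _ => by positivity⟩)
    (by
      intro c p hp h2 _ m m' h
      rw [not_iff_not]
      exact forall_congr' fun j => Pool.Agent.X35.OR.ordS_mod p _ _ _ _ m m' h)
    (by
      intro c p hp h2 hR
      have hf : Fact p.Prime := ⟨hp⟩
      obtain ⟨hR1, hR2⟩ := hR
      rw [hRc] at hR1
      have h5 := Pool.Agent.X35.OR.bad_sups (p := p) (fun j => (c.2 j).1.1) (fun j => (c.2 j).1.2) (fun j => (c.2 j).2.1) (fun j => (c.2 j).2.2)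
        (fun j => ⟨(hR1 j).1, (hR1 j).2.1, (hR1 j).2.2.1⟩) (fun j => (hR1 j).2.2.2.1) hR2 (fun j => by
          have := (hR1 j).2.2.2.2
          show (c.2 j).2.2.natDegree ≤ (c.2 j).1.1 - 1
          omega)
      have h6 : (∑ j, Pool.Agent.X35.OR.defect (c.2 j).1.1 (c.2 j).1.2 (c.2 j).2.1) * (p : ℝ) ≤
          |∑ j, Pool.Agent.X35.OR.defect (c.2 j).1.1 (c.2 j).1.2 (c.2 j).2.1| * p :=
        mul_le_mul_of_nonneg_right (le_abs_self _) (Nat.cast_nonneg _)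
      have h7 := h5.trans (show _ ≤ |∑ j, Pool.Agent.X35.OR.defect (c.2 j).1.1 (c.2 j).1.2 (c.2 j).2.1| * (p : ℝ) +
        ∑ j, (((c.2 j).1.1 : ℝ) + |Pool.Agent.X35.OR.defect (c.2 j).1.1 (c.2 j).1.2 (c.2 j).2.1|) by linarith)
      refine le_trans (le_of_eq ?_) h7
      congr!) c
  refine hmainS.mono' fun M hM hlaw => hM fun hgh m hm x hx1 hx2 P hP => ?_
  have hmain := hlaw m hm x hx1 hx2 P hP
  have hRR : Rc c := by
    rw [hRc]
    exact hgh
  have e1 : {p : ℕ | p ≤ x ∧ p.Prime ∧ p ≠ 2 ∧ p ∈ P ∧ ∀ j, p % ((c.2 j).1.1 * (c.2 j).1.2) = 1} =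
      ((Pool.Agent.X35.OR.sel x P (fun p => Rc c ∧ ∀ j, p % ((c.2 j).1.1 * (c.2 j).1.2) = 1) : Finset ℕ) : Set ℕ) := by
    ext p
    rw [mem_coe, Pool.Agent.X35.OR.mem_sel, Set.mem_ofPred_eq]
    tauto
  have e2 : {p : ℕ | p ≤ x ∧ p.Prime ∧ p ≠ 2 ∧ p ∈ P ∧ (∀ j, p % ((c.2 j).1.1 * (c.2 j).1.2) = 1) ∧
      ∀ j, Ordinary p (c.2 j).1.1 (c.2 j).1.2 (c.2 j).2.1 (c.2 j).2.2 m} =
      ((Pool.Agent.X35.OR.sel x P (fun p => (Rc c ∧ ∀ j, p % ((c.2 j).1.1 * (c.2 j).1.2) = 1) ∧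
        ¬ ¬ ∀ j, Pool.Agent.X35.OR.OrdS p (c.2 j).1.1 (c.2 j).1.2 (c.2 j).2.1 (c.2 j).2.2 m) : Finset ℕ) : Set ℕ) := by
    ext p
    rw [mem_coe, Pool.Agent.X35.OR.mem_sel, Set.mem_ofPred_eq, not_not]
    have : (∀ j, Ordinary p (c.2 j).1.1 (c.2 j).1.2 (c.2 j).2.1 (c.2 j).2.2 m) ↔
      ∀ j, Pool.Agent.X35.OR.OrdS p (c.2 j).1.1 (c.2 j).1.2 (c.2 j).2.1 (c.2 j).2.2 m := Iff.rfl
    tauto
  have e3 : |∑ j, Pool.Agent.X35.OR.defect (c.2 j).1.1 (c.2 j).1.2 (c.2 j).2.1| =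
      ∑ j, defect (c.2 j).1.1 (c.2 j).1.2 (c.2 j).2.1 := by
    apply abs_of_nonneg
    exact sum_nonneg fun j _ => Pool.Agent.X35.OR.defect_nonneg _ _ _ (hgh j).1 (hgh j).2.1
  rw [e1, e2, Set.ncard_coe_finset, Set.ncard_coe_finset, ← e3]
  exact hmain

end Pool.Agent.Results.MP_0dad22_ag.PowersAndDenominators
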