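import Pool.Agent.X35.OR.Dens
import Pool.Agent.X35.OR.Sup

/-!
# Ordinary reduction of direct sums of the summands of `H ^ 1` of the superelliptic curves `Y ^ {N_j} = X ^ {n_j} + h_j (X) + m` given by sets of characters of
`μ_{N_j}`, at a positive proportion of the primes, for all integers `m` near a thin sequence and all finite systems of curves
-/

set_option autoImplicit false

namespace Pool.Agent.Results.MP_0dad22_ag.SuperellipticNearSequences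

open Finset Polynomial

/-- The polynomial `X ^ n + h (X) + m` modulo `p`. -/
noncomputable def poly (p n : ℕ) (h : ℤ[X]) (m : ℤ) : (ZMod p)[X] :=
  X ^ n + h.map (Int.castRingHom (ZMod p)) + C (m : ZMod p)

/-- The number of the differentials `X ^ (i - 1) dX / Y ^ c`, `1 ≤ i`, on the curve `Y ^ N = f (X)`, `deg f = n` prime to `N`, `0 < c < N`, which have no poles: the integral
part of `n c / N`. -/
def dimension (n N c : ℕ) : ℕ := n * c / N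

/-- The block with the number `c` of the Cartier–Manin matrix of the curve `Y ^ N = f (X)` modulo the prime `p ≡ 1` modulo `N`, for the differentials `X ^ (i - 1) dX / Y ^ c`: the entry with
the number `(i, j)`, `i, j ≥ 1`, is the coefficient of `X ^ (i p - j)` in `f (X) ^ (c (p - 1) / N)`. -/
noncomputable def cartierManin (p n N c : ℕ) (f : (ZMod p)[X]) : Matrix (Fin (dimension n N c)) (Fin (dimension n N c)) (ZMod p) :=
  fun i j => (f ^ (c * ((p - 1) / N))).coeff (((i : ℕ) + 1) * p - ((j : ℕ) + 1))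

/-- The curve `Y ^ N = X ^ n + h (X) + m` has good reduction at `p`, and the blocks of the Cartier–Manin matrix with the numbers `c ∈ S` are invertible. -/
def Ordinary (p n N : ℕ) (S : Finset ℕ) (h : ℤ[X]) (m : ℤ) : Prop :=
  (poly p n h m).Separable ∧ ∀ c ∈ S, (cartierManin p n N c (poly p n h m)).det ≠ 0

/-- The number `∑ (a_c c / N - a_c (a_c + 1) / (2 n))`, the sum running over `c ∈ S`, with `a_c = dimension n N c`. -/
noncomputable def defect (n N : ℕ) (S : Finset ℕ) : ℝ :=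
  ∑ c ∈ S, ((dimension n N c : ℝ) * c / N - (dimension n N c : ℝ) * (dimension n N c + 1) / (2 * n))

/-- **Ordinary summands of superelliptic Jacobians near sequences.** Let `δ > 0` and `A` be given. There are `κ > 0` and `C > 0` such that for all
`v_i ≥ 1` with `∑ v_i ^ (-t) < ∞` for all `t > τ` (`τ ≥ 0`), all `θ < 1` and all choices of at most `x ^ A` sets `P ∈ H x` of
integers for every `x ≥ 2` (for instance the residue classes to all moduli `q ≤ x ^ B`) there is a set `E` of reals of Hausdorff dimension at most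
`(1 - κ + τ) / (1 - θ)` such that for every real `α > 0` outside `E` the following holds for ALL `r`, ALL coprime `n_j, N_j ≥ 2`, ALL sets `S_j` of integers
`0 < c < N_j` (sets of characters of `μ_{N_j}`) and ALL polynomials `h_j` with integral coefficients of degree less than `n_j` (`j ≤ r`).

There is `i₀` such that for all `i ≥ i₀`, ALL integers `m` with `||m| - α v_i| ≤ v_i ^ θ`, ALL integers `x` with
`(log |m|) ^ C ≤ x ≤ |m| ^ κ` and ALL `P ∈ H x`: the number of the primes `p ≤ x` in `P`, `p ≡ 1` modulo `n_j N_j` for all `j`, at which for ALL `j` the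
curve `Y ^ {N_j} = X ^ {n_j} + h_j (X) + m` has good reduction and the blocks of its Cartier–Manin matrix for the characters in `S_j` are invertible is at
least `1 - ∑ defect n_j N_j S_j` times the number of all primes `p ≤ x` in `P`, `p ≡ 1` modulo `n_j N_j` for all `j`, up to an error of at most
`x ^ (1 / 2 + δ)`. -/
theorem result (δ A : ℝ) (hδ : 0 < δ) : ∃ κ C : ℝ, 0 < κ ∧ 0 < C ∧
    ∀ (v : ℕ → ℝ) (τ θ : ℝ), (∀ i, 1 ≤ v i) → 0 ≤ τ → θ < 1 → (∀ t : ℝ, τ < t → Summable (fun i => v i ^ (-t))) →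
    ∀ (H : ℕ → Finset (Set ℕ)), (∀ x, 2 ≤ x → ((H x).card : ℝ) ≤ (x : ℝ) ^ A) →
    ∃ E : Set ℝ, dimH E ≤ ENNReal.ofReal ((1 - κ + τ) / (1 - θ)) ∧ ∀ α : ℝ, 0 < α → α ∉ E →
      ∀ (r : ℕ) (n N : Fin r → ℕ) (S : Fin r → Finset ℕ) (h : Fin r → ℤ[X]),
      (∀ j, 2 ≤ n j ∧ 2 ≤ N j ∧ Nat.Coprime (n j) (N j) ∧ (∀ c ∈ S j, 1 ≤ c ∧ c < N j) ∧ (h j).natDegree < n j) → ∃ i₀ : ℕ,
      ∀ i : ℕ, i₀ ≤ i → ∀ m : ℤ, |(|(m : ℝ)|) - α * v i| ≤ v i ^ θ →
        ∀ x : ℕ, Real.log |(m : ℝ)| ^ C ≤ x → (x : ℝ) ≤ |(m : ℝ)| ^ κ → ∀ P ∈ H x,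
          (1 - ∑ j, defect (n j) (N j) (S j)) * ({p : ℕ | p ≤ x ∧ p.Prime ∧ p ≠ 2 ∧ p ∈ P ∧ ∀ j, p % (n j * N j) = 1}.ncard : ℝ) -
              (x : ℝ) ^ (1 / 2 + δ) ≤
            ({p : ℕ | p ≤ x ∧ p.Prime ∧ p ≠ 2 ∧ p ∈ P ∧ (∀ j, p % (n j * N j) = 1) ∧
              ∀ j, Ordinary p (n j) (N j) (S j) (h j) m}.ncard : ℝ) := by
  classical
  obtain ⟨κ, C, hκ, hC, HH⟩ := Pool.Agent.X35.OR.dens_seq δ A hδ
  refine ⟨κ, C, hκ, hC, fun v τ θ hv1 hτ hθ hv H hH => ?_⟩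
  have hc0 : Countable ℤ[X] := Pool.Agent.X35.GM.countable_int_poly
  obtain ⟨Rc, hRc⟩ : ∃ Rc : (Σ r : ℕ, (Fin r → (ℕ × ℕ) × Finset ℕ × ℤ[X])) → Prop, Rc = fun c => ∀ j, 2 ≤ (c.2 j).1.1 ∧ 2 ≤ (c.2 j).1.2 ∧
      Nat.Coprime (c.2 j).1.1 (c.2 j).1.2 ∧ (∀ e ∈ (c.2 j).2.1, 1 ≤ e ∧ e < (c.2 j).1.2) ∧ (c.2 j).2.2.natDegree < (c.2 j).1.1 := ⟨_, rfl⟩
  obtain ⟨E, hE1, hE2⟩ := HH v τ θ hv1 hτ hθ hv H hH (Σ r : ℕ, (Fin r → (ℕ × ℕ) × Finset ℕ × ℤ[X]))
    (fun c p => Rc c ∧ ∀ j, p % ((c.2 j).1.1 * (c.2 j).1.2) = 1)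
    (fun c p m => ¬ ∀ j, Pool.Agent.X35.OR.OrdS p (c.2 j).1.1 (c.2 j).1.2 (c.2 j).2.1 (c.2 j).2.2 m)
    (fun c => |∑ j, Pool.Agent.X35.OR.defect (c.2 j).1.1 (c.2 j).1.2 (c.2 j).2.1|)
    (fun c => ∑ j, (((c.2 j).1.1 : ℝ) + |Pool.Agent.X35.OR.defect (c.2 j).1.1 (c.2 j).1.2 (c.2 j).2.1|))
    (fun c => ⟨abs_nonneg _, sum_nonneg fun j _ => by positivity⟩)
    (by
      intro c p hp h2 _ m m' h
      rw [not_iff_not]
      exact forall_congr' fun j => Pool.Agent.X35.OR.ordS_mod p _ _ _ _ m m' h)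
    (by
      intro c p hp h2 hR
      have hf : Fact p.Prime := ⟨hp⟩
      obtain ⟨hR1, hR2⟩ := hR
      rw [hRc] at hR1
      have h5 := Pool.Agent.X35.OR.bad_sups (p := p) (fun j => (c.2 j).1.1) (fun j => (c.2 j).1.2) (fun j => (c.2 j).2.1) (fun j => (c.2 j).2.2)
        (fun j => ⟨(hR1 j).1, (hR1 j).2.1, (hR1 j).2.2.1⟩) (fun j => (hR1 j).2.2.2.1) hR2 (fun j => by
          have := (hR1 j).2.2.2.2
          show (c.2 j).2.2.natDegree ≤ (c.2 j).1.1 - 1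
          omega)
      have h6 : (∑ j, Pool.Agent.X35.OR.defect (c.2 j).1.1 (c.2 j).1.2 (c.2 j).2.1) * (p : ℝ) ≤
          |∑ j, Pool.Agent.X35.OR.defect (c.2 j).1.1 (c.2 j).1.2 (c.2 j).2.1| * p :=
        mul_le_mul_of_nonneg_right (le_abs_self _) (Nat.cast_nonneg _)
      have h7 := h5.trans (show _ ≤ |∑ j, Pool.Agent.X35.OR.defect (c.2 j).1.1 (c.2 j).1.2 (c.2 j).2.1| * (p : ℝ) +
        ∑ j, (((c.2 j).1.1 : ℝ) + |Pool.Agent.X35.OR.defect (c.2 j).1.1 (c.2 j).1.2 (c.2 j).2.1|) by linarith)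
      refine le_trans (le_of_eq ?_) h7
      congr!)
  refine ⟨E, hE1, fun α hα hαE r n N S h hgh => ?_⟩
  obtain ⟨i₀, hi₀⟩ := hE2 α hα hαE ⟨r, fun j => ((n j, N j), S j, h j)⟩
  refine ⟨i₀, fun i hi m hm x hx1 hx2 P hP => ?_⟩
  have hmain := hi₀ i hi m hm x hx1 hx2 P hP
  have hRR : Rc ⟨r, fun j => ((n j, N j), S j, h j)⟩ := by
    rw [hRc]
    exact hgh
  have e1 : {p : ℕ | p ≤ x ∧ p.Prime ∧ p ≠ 2 ∧ p ∈ P ∧ ∀ j, p % (n j * N j) = 1} =
      ((Pool.Agent.X35.OR.sel x P (fun p => Rc ⟨r, fun j => ((n j, N j), S j, h j)⟩ ∧ ∀ j, p % (n j * N j) = 1) : Finset ℕ) : Set ℕ) := by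
    ext p
    rw [mem_coe, Pool.Agent.X35.OR.mem_sel, Set.mem_ofPred_eq]
    tauto
  have e2 : {p : ℕ | p ≤ x ∧ p.Prime ∧ p ≠ 2 ∧ p ∈ P ∧ (∀ j, p % (n j * N j) = 1) ∧ ∀ j, Ordinary p (n j) (N j) (S j) (h j) m} =
      ((Pool.Agent.X35.OR.sel x P (fun p => (Rc ⟨r, fun j => ((n j, N j), S j, h j)⟩ ∧ ∀ j, p % (n j * N j) = 1) ∧
        ¬ ¬ ∀ j, Pool.Agent.X35.OR.OrdS p (n j) (N j) (S j) (h j) m) : Finset ℕ) : Set ℕ) := by
    ext p
    rw [mem_coe, Pool.Agent.X35.OR.mem_sel, Set.mem_ofPred_eq, not_not]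
    have : (∀ j, Ordinary p (n j) (N j) (S j) (h j) m) ↔ ∀ j, Pool.Agent.X35.OR.OrdS p (n j) (N j) (S j) (h j) m := Iff.rfl
    tauto
  have e3 : |∑ j, Pool.Agent.X35.OR.defect (n j) (N j) (S j)| = ∑ j, defect (n j) (N j) (S j) := by
    apply abs_of_nonneg
    exact sum_nonneg fun j _ => Pool.Agent.X35.OR.defect_nonneg (n j) (N j) (S j) (hgh j).1 (hgh j).2.1
  rw [e1, e2, Set.ncard_coe_finset, Set.ncard_coe_finset, ← e3]
  exact hmain

end Pool.Agent.Results.MP_0dad22_ag.SuperellipticNearSequences
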